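import Pool.Agent.W541.DL.Stm

/-!
Project DL, piece S_BDD: path values are bounded above.
-/

set_option autoImplicit false

open Pool.Agent.W541.DL

namespace Pool.Agent.W639.DL.BDD

theorem main : S_BDD := by
  intro w n s t hw
  have hb : ∀ k, ∃ M, ∀ x ∈ Set.Icc s t, ‖w k x‖ ≤ M := fun k =>
    isCompact_Icc.exists_bound_of_continuousOn (hw k).continuousOn
  choose M hM using hb
  refine ⟨∑ k ∈ Finset.range n, (M k + M k), ?_⟩
  rintro _ ⟨τ, ⟨hmono, h0, hn⟩, rfl⟩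
  unfold pathVal
  refine Finset.sum_le_sum fun k hk => ?_
  have hk' : k < n := Finset.mem_range.1 hk
  have m1 : τ k ∈ Set.Icc s t := ⟨h0 ▸ hmono (Nat.zero_le k), hn ▸ hmono hk'.le⟩
  have m2 : τ (k + 1) ∈ Set.Icc s t := ⟨h0 ▸ hmono (Nat.zero_le _), hn ▸ hmono hk'⟩
  have h1 := hM k _ m1
  have h2 := hM k _ m2
  rw [Real.norm_eq_abs] at h1 h2
  have h3 := (abs_le.1 h1).1
  have h4 := (abs_le.1 h2).2
  linarith

end Pool.Agent.W639.DL.BDD
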